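import Pool.Agent.N571.SS.D.Stm2

/-!
# Project SS/D (helper571), PKG (helper391): the limit argument for one multiplier
-/

set_option autoImplicit false

namespace Pool.Agent.N571.SS.D

namespace PKG

open Filter Topology
open scoped InnerProductSpace ComplexOrder
open Pool.Agent.H494R3.GT (L2 dl UU UU_dl dl_inner inner_dl op_ext op_ext_inner vec_ext mul_ap
  dl_apply_self dl_apply_ne)
open Pool.Agent.N557.QW (lam rgt LG LK cf rc mem_LG mem_LG_iff lam_dl rgt_dl star_lam lam_mem lam_one)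
open Pool.Agent.H812R3

noncomputable section

variable {X X' X'' Y Z J : Type}

theorem dl_eq (x : X) : KP.dl x = dl x := by
  classical
  unfold dl
  exact (KP.dl_eq_single x).symm

/-- the slice at `z` -/
def sl (z : Z) : L2 (X × Z) →L[ℂ] L2 X := KP.slc (Equiv.refl (X × Z)) z

theorem sl_apply (z : Z) (ξ : L2 (X × Z)) (x : X) : sl z ξ x = ξ (x, z) := rfl

theorem lt_le (T : L2 X →L[ℂ] L2 X') (ξ : L2 (X × Z)) (z : Z) :
    ‖T (sl z ξ)‖ ^ 2 ≤ ‖T‖ ^ 2 * ‖sl z ξ‖ ^ 2 := by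
  rw [← mul_pow]
  exact pow_le_pow_left₀ (norm_nonneg _) (T.le_opNorm _) 2

theorem sl_hz (ξ : L2 (X × Z)) : Summable fun z => ‖sl z ξ‖ ^ 2 :=
  KP.slc_hz (Equiv.refl (X × Z)) ξ

theorem sl_tsum (ξ : L2 (X × Z)) : ∑' z, ‖sl z ξ‖ ^ 2 = ‖ξ‖ ^ 2 :=
  KP.slc_tsum (Equiv.refl (X × Z)) ξ

theorem lt_hz2 (T : L2 X →L[ℂ] L2 X') (ξ : L2 (X × Z)) : Summable fun z => ‖T (sl z ξ)‖ ^ 2 :=
  Summable.of_nonneg_of_le (fun z => by positivity) (lt_le T ξ) ((sl_hz ξ).mul_left _)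

theorem lt_hT (T : L2 X →L[ℂ] L2 X') (ξ : L2 (X × Z)) :
    Summable fun p : Z × X' => ‖(T (sl p.1 ξ)) p.2‖ ^ 2 := by
  rw [summable_prod_of_nonneg (fun p => by positivity)]
  refine ⟨fun z => KP.summable_sq (T (sl z ξ)), ?_⟩
  have h1 : (fun z => ‖T (sl z ξ)‖ ^ 2) = fun z => ∑' x, ‖(T (sl z ξ)) x‖ ^ 2 :=
    funext fun z => KP.norm_sq_eq _
  have h2 := lt_hz2 T ξ
  rw [h1] at h2
  exact h2

theorem lt_hY (T : L2 X →L[ℂ] L2 X') (ξ : L2 (X × Z)) :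
    Summable fun y : X' × Z => ‖(T (sl y.2 ξ)) y.1‖ ^ 2 := by
  have h := (lt_hT T ξ).comp_injective (Equiv.prodComm X' Z).injective
  have e : (fun y : X' × Z => ‖(T (sl y.2 ξ)) y.1‖ ^ 2) =
      (fun p : Z × X' => ‖(T (sl p.1 ξ)) p.2‖ ^ 2) ∘ (Equiv.prodComm X' Z) := by
    funext y
    rfl
  rw [e]
  exact h

/-- `T ⊗ 1`, linear map -/
def ltS (T : L2 X →L[ℂ] L2 X') : L2 (X × Z) →ₗ[ℂ] L2 (X' × Z) where
  toFun := fun ξ => ⟨fun y => (T (sl y.2 ξ)) y.1, KP.mem_of_summable (lt_hY T ξ)⟩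
  map_add' := by
    intro ξ η
    apply vec_ext
    intro y
    change (T (sl y.2 (ξ + η))) y.1 = (T (sl y.2 ξ)) y.1 + (T (sl y.2 η)) y.1
    rw [map_add, map_add]
    rfl
  map_smul' := by
    intro c ξ
    apply vec_ext
    intro y
    change (T (sl y.2 (c • ξ))) y.1 = c * (T (sl y.2 ξ)) y.1
    rw [map_smul, map_smul]
    rfl

theorem ltS_norm_sq (T : L2 X →L[ℂ] L2 X') (ξ : L2 (X × Z)) :
    ‖ltS T ξ‖ ^ 2 = ∑' z, ‖T (sl z ξ)‖ ^ 2 := by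
  rw [KP.norm_sq_eq, ← Equiv.tsum_eq (Equiv.prodComm Z X') fun y => ‖(ltS T ξ) y‖ ^ 2]
  have h := (lt_hT T ξ).tsum_prod
  calc ∑' p : Z × X', ‖(ltS T ξ) ((Equiv.prodComm Z X') p)‖ ^ 2
      = ∑' p : Z × X', ‖(T (sl p.1 ξ)) p.2‖ ^ 2 := rfl
    _ = ∑' z, ‖T (sl z ξ)‖ ^ 2 := by
      rw [h]
      exact tsum_congr fun z => (KP.norm_sq_eq (T (sl z ξ))).symm

theorem ltS_norm (T : L2 X →L[ℂ] L2 X') (ξ : L2 (X × Z)) : ‖ltS T ξ‖ ≤ ‖T‖ * ‖ξ‖ := by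
  have h : ‖ltS T ξ‖ ^ 2 ≤ (‖T‖ * ‖ξ‖) ^ 2 := by
    calc ‖ltS T ξ‖ ^ 2 = ∑' z, ‖T (sl z ξ)‖ ^ 2 := ltS_norm_sq T ξ
      _ ≤ ∑' z, ‖T‖ ^ 2 * ‖sl z ξ‖ ^ 2 :=
          (lt_hz2 T ξ).tsum_le_tsum (lt_le T ξ) ((sl_hz ξ).mul_left _)
      _ = ‖T‖ ^ 2 * ∑' z, ‖sl z ξ‖ ^ 2 := by rw [tsum_mul_left]
      _ = ‖T‖ ^ 2 * ‖ξ‖ ^ 2 := by rw [sl_tsum]
      _ = (‖T‖ * ‖ξ‖) ^ 2 := by ring
  exact (sq_le_sq₀ (norm_nonneg _) (by positivity)).1 h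

/-- `T ⊗ 1` -/
def lt (Z : Type) (T : L2 X →L[ℂ] L2 X') : L2 (X × Z) →L[ℂ] L2 (X' × Z) :=
  (ltS T).mkContinuous ‖T‖ (ltS_norm T)

theorem lt_apply (T : L2 X →L[ℂ] L2 X') (ξ : L2 (X × Z)) (x : X') (z : Z) :
    lt Z T ξ (x, z) = T (sl z ξ) x := rfl

theorem lt_norm (T : L2 X →L[ℂ] L2 X') : ‖lt Z T‖ ≤ ‖T‖ :=
  (ltS T).mkContinuous_norm_le (norm_nonneg _) (ltS_norm T)

theorem lt_isom (T : L2 X →L[ℂ] L2 X') (hT : ∀ v, ‖T v‖ = ‖v‖) (ξ : L2 (X × Z)) :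
    ‖lt Z T ξ‖ = ‖ξ‖ := by
  have h : ‖lt Z T ξ‖ ^ 2 = ‖ξ‖ ^ 2 := by
    have h1 : ‖lt Z T ξ‖ ^ 2 = ∑' z, ‖T (sl z ξ)‖ ^ 2 := ltS_norm_sq T ξ
    rw [h1, ← sl_tsum ξ]
    exact tsum_congr fun z => by rw [hT]
  exact (sq_eq_sq₀ (norm_nonneg _) (norm_nonneg _)).1 h

theorem sl_lt (T : L2 X →L[ℂ] L2 X') (ξ : L2 (X × Z)) (z : Z) :
    sl z (lt Z T ξ) = T (sl z ξ) := vec_ext fun _ => rfl

theorem lt_comp (S : L2 X' →L[ℂ] L2 X'') (T : L2 X →L[ℂ] L2 X') :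
    lt Z (S.comp T) = (lt Z S).comp (lt Z T) := by
  ext ξ : 1
  apply vec_ext
  rintro ⟨x, z⟩
  rw [lt_apply, ContinuousLinearMap.comp_apply, ContinuousLinearMap.comp_apply, lt_apply, sl_lt]

theorem lt_sub (S T : L2 X →L[ℂ] L2 X') : lt Z (S - T) = lt Z S - lt Z T := by
  ext ξ : 1
  apply vec_ext
  rintro ⟨x, z⟩
  rfl

theorem lt_add (S T : L2 X →L[ℂ] L2 X') : lt Z (S + T) = lt Z S + lt Z T := by
  ext ξ : 1
  apply vec_ext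
  rintro ⟨x, z⟩
  rfl

theorem lt_smul (c : ℂ) (T : L2 X →L[ℂ] L2 X') : lt Z (c • T) = c • lt Z T := by
  ext ξ : 1
  apply vec_ext
  rintro ⟨x, z⟩
  rfl

theorem amp_lt (T : B X) : KP.amp (Equiv.refl (X × Z)) T = lt Z T := by
  ext ξ : 1
  apply vec_ext
  rintro ⟨x, z⟩
  exact KP.amp_apply (Equiv.refl (X × Z)) T ξ x z

theorem a1_lt (T : B X) : a1 T = lt X T := amp_lt T

/-- `1 ⊗ S` -/
def rt (X : Type) (S : B Z) : B (X × Z) := KP.amp (Equiv.prodComm Z X) S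

theorem rt_apply (S : B Z) (ξ : L2 (X × Z)) (x : X) (z : Z) : rt X S ξ (x, z) =
    S (KP.pull (fun z => ((x, z) : X × Z)) (KP.amp_inj (Equiv.prodComm Z X) x) ξ) z :=
  KP.amp_apply (Equiv.prodComm Z X) S ξ z x

theorem rt_norm (S : B Z) : ‖rt X S‖ ≤ ‖S‖ := KP.norm_ampF_le _ S

theorem a2_rt (T : B X) : a2 T = rt X T := rfl

/-- `u ⊗ v` -/
def tn (u : L2 X) (v : L2 Z) : L2 (X × Z) :=
  ⟨fun p => u p.1 * v p.2, KP.mem_of_summable (by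
    simp only [norm_mul, mul_pow]
    exact (KP.summable_sq u).mul_of_nonneg (KP.summable_sq v) (fun _ => by positivity)
      (fun _ => by positivity))⟩

theorem tn_apply (u : L2 X) (v : L2 Z) (x : X) (z : Z) : tn u v (x, z) = u x * v z := rfl

theorem tn_dl (x : X) (z : Z) : tn (dl x) (dl z) = dl (x, z) := by
  classical
  apply vec_ext
  rintro ⟨x', z'⟩
  rw [tn_apply]
  by_cases h1 : x' = x
  · by_cases h2 : z' = z
    · rw [h1, h2, dl_apply_self, dl_apply_self, dl_apply_self, mul_one]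
    · have h3 : (x', z') ≠ (x, z) := fun h => h2 (Prod.mk.inj h).2
      rw [dl_apply_ne h2, dl_apply_ne h3, mul_zero]
  · have h3 : (x', z') ≠ (x, z) := fun h => h1 (Prod.mk.inj h).1
    rw [dl_apply_ne h1, dl_apply_ne h3, zero_mul]

theorem sl_tn (u : L2 X) (v : L2 Z) (z : Z) : sl z (tn u v) = v z • u := by
  apply vec_ext
  intro x
  rw [sl_apply, tn_apply, lp.coeFn_smul, Pi.smul_apply, smul_eq_mul, mul_comm]

theorem lt_tn (T : L2 X →L[ℂ] L2 X') (u : L2 X) (v : L2 Z) : lt Z T (tn u v) = tn (T u) v := by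
  apply vec_ext
  rintro ⟨x, z⟩
  rw [lt_apply, sl_tn, map_smul, tn_apply, lp.coeFn_smul, Pi.smul_apply, smul_eq_mul, mul_comm]

theorem rt_tn (S : B Z) (u : L2 X) (v : L2 Z) : rt X S (tn u v) = tn u (S v) := by
  apply vec_ext
  rintro ⟨x, z⟩
  have h : KP.pull (fun z => ((x, z) : X × Z)) (KP.amp_inj (Equiv.prodComm Z X) x) (tn u v) =
      u x • v := by
    apply vec_ext
    intro z'
    change u x * v z' = (u x • v) z'
    rw [lp.coeFn_smul, Pi.smul_apply, smul_eq_mul]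
  rw [rt_apply, h, map_smul, tn_apply, lp.coeFn_smul, Pi.smul_apply, smul_eq_mul]

theorem op_ext' {T S : L2 X →L[ℂ] L2 Y} (h : ∀ x, T (dl x) = S (dl x)) : T = S := by
  ext ξ : 1
  have h1 := (KP.hasSum_dl ξ).mapL T
  have h2 := (KP.hasSum_dl ξ).mapL S
  simp only [map_smul, dl_eq, h] at h1 h2
  exact h1.unique h2

theorem lt_rt (T : L2 X →L[ℂ] L2 X') (S : B Z) :
    (lt Z T).comp (rt X S) = (rt X' S).comp (lt Z T) := by
  apply op_ext'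
  rintro ⟨x, z⟩
  rw [← tn_dl, ContinuousLinearMap.comp_apply, ContinuousLinearMap.comp_apply, rt_tn, lt_tn, lt_tn,
    rt_tn]

/-- reassociation -/
def U (X Y Z : Type) : L2 ((X × Y) × Z) →L[ℂ] L2 (X × (Y × Z)) :=
  KP.pull (Equiv.prodAssoc X Y Z).symm (Equiv.prodAssoc X Y Z).symm.injective

theorem U_tn (u : L2 X) (v : L2 Y) (w : L2 Z) : U X Y Z (tn (tn u v) w) = tn u (tn v w) := by
  apply vec_ext
  rintro ⟨x, y, z⟩
  change (u x * v y) * w z = u x * (v y * w z)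
  ring

theorem U_norm (ξ : L2 ((X × Y) × Z)) : ‖U X Y Z ξ‖ = ‖ξ‖ := by
  have h : ‖U X Y Z ξ‖ ^ 2 = ‖ξ‖ ^ 2 := by
    rw [KP.norm_sq_eq, KP.norm_sq_eq]
    exact Equiv.tsum_eq (Equiv.prodAssoc X Y Z).symm fun y => ‖ξ y‖ ^ 2
  exact (sq_eq_sq₀ (norm_nonneg _) (norm_nonneg _)).1 h

theorem U_dl (x : X) (y : Y) (z : Z) : (dl ((x, y), z) : L2 ((X × Y) × Z)) =
    tn (tn (dl x) (dl y)) (dl z) := by rw [tn_dl, tn_dl]

theorem U_lt (T : L2 X →L[ℂ] L2 X') :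
    (U X' Y Z).comp (lt Z (lt Y T)) = (lt (Y × Z) T).comp (U X Y Z) := by
  apply op_ext'
  rintro ⟨⟨x, y⟩, z⟩
  rw [U_dl, ContinuousLinearMap.comp_apply, ContinuousLinearMap.comp_apply, lt_tn, lt_tn, U_tn,
    U_tn, lt_tn]

theorem U_mid (S : B Y) :
    (U X Y Z).comp (lt Z (rt X S)) = (rt X (lt Z S)).comp (U X Y Z) := by
  apply op_ext'
  rintro ⟨⟨x, y⟩, z⟩
  rw [U_dl, ContinuousLinearMap.comp_apply, ContinuousLinearMap.comp_apply, lt_tn, rt_tn, U_tn,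
    U_tn, rt_tn, lt_tn]

theorem U_rt (S : B Z) :
    (U X Y Z).comp (rt (X × Y) S) = (rt X (rt Y S)).comp (U X Y Z) := by
  apply op_ext'
  rintro ⟨⟨x, y⟩, z⟩
  rw [U_dl, ContinuousLinearMap.comp_apply, ContinuousLinearMap.comp_apply, rt_tn, U_tn,
    U_tn, rt_tn, rt_tn]

theorem inner_tn (u u' : L2 X) (v v' : L2 Z) :
    ⟪tn u v, tn u' v'⟫_ℂ = ⟪u, u'⟫_ℂ * ⟪v, v'⟫_ℂ := by
  have h1 : HasSum (fun x => (starRingEnd ℂ) (u x) * u' x) ⟪u, u'⟫_ℂ := by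
    have := lp.hasSum_inner (𝕜 := ℂ) u u'
    simpa only [RCLike.inner_apply, mul_comm] using this
  have h2 : HasSum (fun x => (starRingEnd ℂ) (v x) * v' x) ⟪v, v'⟫_ℂ := by
    have := lp.hasSum_inner (𝕜 := ℂ) v v'
    simpa only [RCLike.inner_apply, mul_comm] using this
  have h3 : HasSum (fun p : X × Z => (starRingEnd ℂ) (tn u v p) * tn u' v' p)
      ⟪tn u v, tn u' v'⟫_ℂ := by
    have := lp.hasSum_inner (𝕜 := ℂ) (tn u v) (tn u' v')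
    simpa only [RCLike.inner_apply, mul_comm] using this
  have e : (fun p : X × Z => (starRingEnd ℂ) (tn u v p) * tn u' v' p) =
      fun p => ((starRingEnd ℂ) (u p.1) * u' p.1) * ((starRingEnd ℂ) (v p.2) * v' p.2) := by
    funext p
    have e1 : tn u v p = u p.1 * v p.2 := rfl
    have e2 : tn u' v' p = u' p.1 * v' p.2 := rfl
    rw [e1, e2, map_mul]
    ring
  rw [e] at h3
  have h4 := h1.mul h2 h3.summable
  exact h3.unique h4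

end

end PKG

end Pool.Agent.N571.SS.D
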