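import Pool.Agent.N391.PKG.Lib

/-!
# Project SS/D (helper571), PKG (helper391): columns and limits
-/

set_option autoImplicit false

namespace Pool.Agent.N571.SS.D

namespace PKG

open Filter Topology
open scoped InnerProductSpace ComplexOrder
open Pool.Agent.H494R3.GT (L2 dl UU UU_dl dl_inner inner_dl op_ext op_ext_inner vec_ext mul_ap
  dl_apply_self dl_apply_ne)
open Pool.Agent.N557.QW (lam rgt LG LK cf rc mem_LG mem_LG_iff lam_dl rgt_dl star_lam lam_mem lam_one)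
open Pool.Agent.H812R3

noncomputable section

variable {X X' X'' Y Z J : Type}

/-! ### columns -/

theorem dg_sum (c : X → L2 J) (C : ℝ) (hc : ∀ x, ‖c x‖ ^ 2 ≤ C) (v : L2 X) :
    (Summable fun p : X × J => ‖v p.1 * c p.1 p.2‖ ^ 2) ∧
      ∑' p : X × J, ‖v p.1 * c p.1 p.2‖ ^ 2 ≤ C * ‖v‖ ^ 2 := by
  have e1 : ∀ x j, ‖v x * c x j‖ ^ 2 = ‖v x‖ ^ 2 * ‖c x j‖ ^ 2 := fun x j => by
    rw [norm_mul, mul_pow]
  have e2 : ∀ x, ∑' j, ‖v x * c x j‖ ^ 2 = ‖v x‖ ^ 2 * ‖c x‖ ^ 2 := fun x => by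
    simp only [e1]
    rw [tsum_mul_left, ← KP.norm_sq_eq]
  have e3 : ∀ x, ‖v x‖ ^ 2 * ‖c x‖ ^ 2 ≤ C * ‖v x‖ ^ 2 := fun x => by
    have := mul_le_mul_of_nonneg_left (hc x) (sq_nonneg ‖v x‖)
    linarith
  have s1 : Summable fun x => ‖v x‖ ^ 2 * ‖c x‖ ^ 2 :=
    Summable.of_nonneg_of_le (fun x => by positivity) e3 ((KP.summable_sq v).mul_left C)
  have hs : Summable fun p : X × J => ‖v p.1 * c p.1 p.2‖ ^ 2 := by
    rw [summable_prod_of_nonneg (fun p => by positivity)]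
    refine ⟨fun x => ?_, ?_⟩
    · have : (fun j => ‖v x * c x j‖ ^ 2) = fun j => ‖v x‖ ^ 2 * ‖c x j‖ ^ 2 :=
        funext fun j => e1 x j
      exact this ▸ (KP.summable_sq (c x)).mul_left _
    · have : (fun x => ∑' j, ‖v x * c x j‖ ^ 2) = fun x => ‖v x‖ ^ 2 * ‖c x‖ ^ 2 :=
        funext fun x => e2 x
      exact this ▸ s1
  refine ⟨hs, ?_⟩
  rw [hs.tsum_prod]
  have e4 : ∑' x, ∑' j, ‖v x * c x j‖ ^ 2 = ∑' x, ‖v x‖ ^ 2 * ‖c x‖ ^ 2 :=
    tsum_congr fun x => e2 x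
  refine le_trans (le_of_eq e4) ?_
  rw [KP.norm_sq_eq, ← tsum_mul_left]
  exact s1.tsum_le_tsum e3 ((KP.summable_sq v).mul_left C)

/-- `v ↦ (v x c x)`, linear map -/
def dgL (c : X → L2 J) (C : ℝ) (hc : ∀ x, ‖c x‖ ^ 2 ≤ C) : L2 X →ₗ[ℂ] L2 (X × J) where
  toFun := fun v => ⟨fun p => v p.1 * c p.1 p.2, KP.mem_of_summable (dg_sum c C hc v).1⟩
  map_add' := by
    intro v w
    apply vec_ext
    intro p
    change (v p.1 + w p.1) * c p.1 p.2 = v p.1 * c p.1 p.2 + w p.1 * c p.1 p.2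
    ring
  map_smul' := by
    intro a v
    apply vec_ext
    intro p
    change (a * v p.1) * c p.1 p.2 = a * (v p.1 * c p.1 p.2)
    ring

theorem dgL_norm (c : X → L2 J) (C : ℝ) (hC : 0 ≤ C) (hc : ∀ x, ‖c x‖ ^ 2 ≤ C) (v : L2 X) :
    ‖dgL c C hc v‖ ≤ √C * ‖v‖ := by
  have h : ‖dgL c C hc v‖ ^ 2 ≤ (√C * ‖v‖) ^ 2 := by
    rw [mul_pow, Real.sq_sqrt hC, KP.norm_sq_eq]
    exact (dg_sum c C hc v).2
  exact (sq_le_sq₀ (norm_nonneg _) (by positivity)).1 h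

/-- `v ↦ (v x c x)` -/
def dg (c : X → L2 J) (C : ℝ) (hC : 0 ≤ C) (hc : ∀ x, ‖c x‖ ^ 2 ≤ C) : L2 X →L[ℂ] L2 (X × J) :=
  (dgL c C hc).mkContinuous (√C) (dgL_norm c C hC hc)

theorem dg_norm (c : X → L2 J) (C : ℝ) (hC : 0 ≤ C) (hc : ∀ x, ‖c x‖ ^ 2 ≤ C) :
    ‖dg c C hC hc‖ ≤ √C :=
  (dgL c C hc).mkContinuous_norm_le (Real.sqrt_nonneg _) (dgL_norm c C hC hc)

theorem dg_dl (c : X → L2 J) (C : ℝ) (hC : 0 ≤ C) (hc : ∀ x, ‖c x‖ ^ 2 ≤ C) (x : X) :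
    dg c C hC hc (dl x) = tn (dl x) (c x) := by
  apply vec_ext
  rintro ⟨x', j⟩
  change dl x x' * c x' j = dl x x' * c x j
  by_cases h : x' = x
  · rw [h]
  · rw [dl_apply_ne h, zero_mul, zero_mul]

theorem dg_schur0 (c c' : X → L2 J) (C : ℝ) (hC : 0 ≤ C) (hc : ∀ x, ‖c x‖ ^ 2 ≤ C)
    (hc' : ∀ x, ‖c' x‖ ^ 2 ≤ C) (T T' : B X)
    (h : ∀ x x', ⟪dl x, T' (dl x')⟫_ℂ = ⟪dl x, T (dl x')⟫_ℂ * ⟪c' x, c x'⟫_ℂ) :
    ‖T'‖ ≤ C * ‖T‖ := by
  have e : T' = (ContinuousLinearMap.adjoint (dg c' C hC hc')).comp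
      ((lt J T).comp (dg c C hC hc)) := by
    apply op_ext_inner
    intro x x'
    rw [ContinuousLinearMap.comp_apply, ContinuousLinearMap.adjoint_inner_right,
      ContinuousLinearMap.comp_apply, dg_dl, dg_dl, lt_tn, inner_tn, h]
  rw [e]
  refine (ContinuousLinearMap.opNorm_comp_le _ _).trans ?_
  have h1 : ‖ContinuousLinearMap.adjoint (dg c' C hC hc')‖ ≤ √C := by
    rw [LinearIsometryEquiv.norm_map]
    exact dg_norm c' C hC hc'
  have h2 : ‖(lt J T).comp (dg c C hC hc)‖ ≤ ‖T‖ * √C :=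
    (ContinuousLinearMap.opNorm_comp_le _ _).trans
      (mul_le_mul (lt_norm T) (dg_norm c C hC hc) (norm_nonneg _) (norm_nonneg _))
  calc _ ≤ √C * (‖T‖ * √C) := mul_le_mul h1 h2 (norm_nonneg _) (Real.sqrt_nonneg _)
    _ = (√C * √C) * ‖T‖ := by ring
    _ = C * ‖T‖ := by rw [Real.mul_self_sqrt hC]

theorem dg_schur (c c' : X → L2 J) (C : ℝ) (hC : 0 ≤ C) (hc : ∀ x, ‖c x‖ ^ 2 ≤ C)
    (hc' : ∀ x, ‖c' x‖ ^ 2 ≤ C) (T T' : B X)
    (h : ∀ x x', ⟪dl x, T' (dl x')⟫_ℂ = ⟪dl x, T (dl x')⟫_ℂ * ⟪c' x, c x'⟫_ℂ)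
    (u v : L2 (X × Z)) :
    ⟪lt Z (dg c' C hC hc') u, lt Z (lt J T) (lt Z (dg c C hC hc) v)⟫_ℂ = ⟪u, lt Z T' v⟫_ℂ := by
  have e : (ContinuousLinearMap.adjoint (lt Z (dg c' C hC hc'))).comp
      ((lt Z (lt J T)).comp (lt Z (dg c C hC hc))) = lt Z T' := by
    apply op_ext_inner
    rintro ⟨x, z⟩ ⟨x', z'⟩
    rw [ContinuousLinearMap.comp_apply, ContinuousLinearMap.adjoint_inner_right,
      ContinuousLinearMap.comp_apply, ← tn_dl, ← tn_dl, lt_tn, lt_tn, lt_tn, lt_tn, dg_dl, dg_dl,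
      lt_tn, inner_tn, inner_tn, inner_tn, h]
  rw [← e, ContinuousLinearMap.comp_apply, ContinuousLinearMap.adjoint_inner_right,
    ContinuousLinearMap.comp_apply]

/-- complex coordinates of a real Hilbert space -/
theorem exists_col (K0 : Type) [NormedAddCommGroup K0] [InnerProductSpace ℝ K0] [CompleteSpace K0] :
    ∃ (J : Type) (Φ : K0 → L2 J), ∀ x y, ⟪Φ x, Φ y⟫_ℂ = ((inner ℝ x y : ℝ) : ℂ) := by
  obtain ⟨w, b, _⟩ := exists_hilbertBasis ℝ K0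
  have hmem : ∀ x : K0, Memℓp (fun j : w => ((b.repr x j : ℝ) : ℂ)) 2 := fun x => by
    apply KP.mem_of_summable
    have h := lp.memℓp (b.repr x)
    rw [memℓp_gen_iff (by norm_num)] at h
    simpa using h
  refine ⟨w, fun x => ⟨fun j => ((b.repr x j : ℝ) : ℂ), hmem x⟩, fun x y => ?_⟩
  have h1 := lp.hasSum_inner (𝕜 := ℂ) (⟨fun j => ((b.repr x j : ℝ) : ℂ), hmem x⟩ : L2 w)
    (⟨fun j => ((b.repr y j : ℝ) : ℂ), hmem y⟩ : L2 w)
  have h2 := lp.hasSum_inner (𝕜 := ℝ) (b.repr x) (b.repr y)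
  rw [LinearIsometryEquiv.inner_map_map] at h2
  have h3 := Complex.hasSum_ofReal.mpr h2
  have e : (fun j : w => ⟪((b.repr x j : ℝ) : ℂ), ((b.repr y j : ℝ) : ℂ)⟫_ℂ) =
      fun j => ((inner ℝ (b.repr x j) (b.repr y j) : ℝ) : ℂ) := by
    funext j
    simp [RCLike.inner_apply]
  change HasSum (fun j : w => ⟪((b.repr x j : ℝ) : ℂ), ((b.repr y j : ℝ) : ℂ)⟫_ℂ) _ at h1
  rw [e] at h1
  exact h1.unique h3

/-! ### rank one operators -/

/-- `ζ ↦ ⟨u, ζ⟩ v` -/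
def Th (u v : L2 X) : B X := (innerSL ℂ u).smulRight v

theorem Th_apply (u v ζ : L2 X) : Th u v ζ = ⟪u, ζ⟫_ℂ • v := rfl

theorem Th_norm (u v : L2 X) : ‖Th u v‖ ≤ ‖u‖ * ‖v‖ := by
  unfold Th
  rw [ContinuousLinearMap.norm_smulRight_apply, innerSL_apply_norm]

theorem Pg_eq (g : X) : Pg g = Th (dl g) (dl g) := rfl

theorem Th_sub (u u' v : L2 X) : Th (u - u') v = Th u v - Th u' v := by
  ext1 ζ
  rw [sub_apply, Th_apply, Th_apply, Th_apply, inner_sub_left, sub_smul]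

theorem Th_add (u u' v : L2 X) : Th (u + u') v = Th u v + Th u' v := by
  ext1 ζ
  rw [add_apply, Th_apply, Th_apply, Th_apply, inner_add_left, add_smul]

theorem Th_smul (c : ℂ) (u v : L2 X) : Th (c • u) v = (starRingEnd ℂ) c • Th u v := by
  ext1 ζ
  rw [smul_apply, Th_apply, Th_apply, inner_smul_left, smul_smul]

theorem a1_add' (S T : B X) : a1 (S + T) = a1 S + a1 T := map_add _ _ _
theorem a1_sub' (S T : B X) : a1 (S - T) = a1 S - a1 T := map_sub _ _ _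
theorem a1_smul' (c : ℂ) (T : B X) : a1 (c • T) = c • a1 T := map_smul _ _ _
theorem a1_mul' (S T : B X) : a1 (S * T) = a1 S * a1 T := KP.amp_mul _ _ _
theorem a1_norm' (T : B X) : ‖a1 T‖ ≤ ‖T‖ := by rw [a1_lt]; exact lt_norm T
theorem a1_zero' : a1 (0 : B X) = 0 := map_zero _

/-- sequences which leave the finite sets, in the first variable -/
structure Nice (η : ℕ → L2 (X × X)) : Prop where
  bdd : ∃ M : ℝ, 0 ≤ M ∧ ∀ n, ‖η n‖ ≤ M
  null : ∀ g : X, Tendsto (fun n => ‖a1 (Pg g) (η n)‖) atTop (𝓝 0)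

theorem Nice.th {G : Type} [Group G] {ξ : ℕ → L2 (G × G)} (h : Nice ξ) (u : L2 G) (g : G) :
    Tendsto (fun n => ‖a1 (Th u (dl g)) (ξ n)‖) atTop (𝓝 0) := by
  obtain ⟨M, hM0, hM⟩ := h.bdd
  have p1 : ∀ k : G, Tendsto (fun n => ‖a1 (Th (dl k) (dl g)) (ξ n)‖) atTop (𝓝 0) := by
    intro k
    have e : Th (dl k) (dl g) = lam (g * k⁻¹) * Pg k := by
      ext1 ζ
      rw [mul_ap, Pg_eq, Th_apply, Th_apply, map_smul, lam_dl]
      congr 2
      group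
    rw [e, a1_mul']
    have h1 := (h.null k).const_mul ‖a1 (lam (g * k⁻¹))‖
    rw [mul_zero] at h1
    refine squeeze_zero (fun n => norm_nonneg _) (fun n => ?_) h1
    rw [mul_ap]
    exact ContinuousLinearMap.le_opNorm _ _
  have p2 : ∀ F : Finset G, Tendsto (fun n => ‖a1 (Th (∑ x ∈ F, u x • (dl x : L2 G)) (dl g)) (ξ n)‖)
      atTop (𝓝 0) := by
    intro F
    classical
    induction F using Finset.induction_on with
    | empty =>
      have e : Th (0 : L2 G) (dl g) = 0 := by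
        ext1 ζ
        rw [Th_apply, inner_zero_left, zero_smul]
        rfl
      simp only [Finset.sum_empty, e, a1_zero', zero_apply, norm_zero]
      exact tendsto_const_nhds
    | insert x F hx ih =>
      rw [Finset.sum_insert hx, Th_add, a1_add', Th_smul, a1_smul']
      have h1 := ((p1 x).const_mul ‖(starRingEnd ℂ) (u x)‖).add ih
      rw [mul_zero, zero_add] at h1
      refine squeeze_zero (fun n => norm_nonneg _) (fun n => ?_) h1
      rw [add_apply, smul_apply]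
      refine (norm_add_le _ _).trans ?_
      rw [norm_smul]
  rw [Metric.tendsto_atTop]
  intro ε hε
  have h3 := (KP.hasSum_dl u)
  simp only [dl_eq] at h3
  have h4 : ∀ᶠ F : Finset G in atTop, ‖(∑ x ∈ F, u x • (dl x : L2 G)) - u‖ < ε / (2 * (M + 1)) := by
    have := Metric.tendsto_nhds.mp h3 (ε / (2 * (M + 1))) (by positivity)
    filter_upwards [this] with F hF
    rwa [dist_eq_norm] at hF
  obtain ⟨F, hF⟩ := h4.exists
  obtain ⟨N, hN⟩ := (Metric.tendsto_atTop.mp (p2 F)) (ε / 2) (by positivity)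
  refine ⟨N, fun n hn => ?_⟩
  have h5 := hN n hn
  rw [Real.dist_eq, sub_zero, abs_of_nonneg (norm_nonneg _)] at h5 ⊢
  have e : a1 (Th u (dl g)) (ξ n) = a1 (Th (∑ x ∈ F, u x • (dl x : L2 G)) (dl g)) (ξ n) -
      a1 (Th ((∑ x ∈ F, u x • (dl x : L2 G)) - u) (dl g)) (ξ n) := by
    rw [Th_sub, a1_sub', sub_apply]
    abel
  rw [e]
  have h6 : ‖a1 (Th ((∑ x ∈ F, u x • (dl x : L2 G)) - u) (dl g)) (ξ n)‖ ≤
      ε / (2 * (M + 1)) * M := by
    refine (ContinuousLinearMap.le_opNorm _ _).trans ?_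
    refine mul_le_mul ?_ (hM n) (norm_nonneg _) (by positivity)
    refine (a1_norm' _).trans ((Th_norm _ _).trans ?_)
    have : ‖(dl g : L2 G)‖ = 1 := by
      rw [← dl_eq]
      exact KP.norm_dl g
    rw [this, mul_one]
    exact hF.le
  have h7 : ε / (2 * (M + 1)) * M ≤ ε / 2 := by
    rw [div_mul_eq_mul_div, div_le_div_iff₀ (by positivity) (by norm_num)]
    nlinarith
  refine (norm_sub_le _ _).trans_lt ?_
  linarith

theorem isom_norm {H : Type} [NormedAddCommGroup H] [InnerProductSpace ℂ H] [CompleteSpace H]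
    (Q : H →L[ℂ] H) (hQ : star Q * Q = 1) (v : H) : ‖Q v‖ = ‖v‖ := by
  have h : ⟪Q v, Q v⟫_ℂ = ⟪v, v⟫_ℂ := by
    rw [← ContinuousLinearMap.adjoint_inner_right, ← ContinuousLinearMap.star_eq_adjoint]
    have : (star Q) (Q v) = (star Q * Q) v := rfl
    rw [this, hQ]
    rfl
  rw [@norm_eq_sqrt_re_inner ℂ, @norm_eq_sqrt_re_inner ℂ _ _ _ _ v, h]

theorem Nice.qa {G : Type} [Group G] {ξ : ℕ → L2 (G × G)} (h : Nice ξ) (a : B G)
    (Q : B (G × G)) (hQ : star Q * Q = 1) (hQc : ∀ T : B G, Q * a1 T = a1 T * Q) :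
    Nice (fun n => Q (a1 a (ξ n))) := by
  obtain ⟨M, hM0, hM⟩ := h.bdd
  refine ⟨⟨‖a‖ * M, by positivity, fun n => ?_⟩, fun g => ?_⟩
  · rw [isom_norm Q hQ]
    exact ((a1 a).le_opNorm _).trans (mul_le_mul (a1_norm' a) (hM n) (norm_nonneg _)
      (norm_nonneg _))
  · have e : ∀ n, ‖a1 (Pg g) (Q (a1 a (ξ n)))‖ = ‖a1 (Th ((star a) (dl g)) (dl g)) (ξ n)‖ := by
      intro n
      have e1 : a1 (Pg g) (Q (a1 a (ξ n))) = Q (a1 (Pg g) (a1 a (ξ n))) := by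
        have := congrArg (fun S : B (G × G) => S (a1 a (ξ n))) (hQc (Pg g))
        exact this.symm
      have e2 : a1 (Pg g) (a1 a (ξ n)) = a1 (Th ((star a) (dl g)) (dl g)) (ξ n) := by
        rw [← mul_ap, ← a1_mul']
        congr 2
        ext1 ζ
        rw [mul_ap, Pg_eq, Th_apply, Th_apply, ContinuousLinearMap.star_eq_adjoint,
          ContinuousLinearMap.adjoint_inner_left]
      rw [e1, isom_norm Q hQ, e2]
    simp only [e]
    exact h.th _ g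

end

end PKG

end Pool.Agent.N571.SS.D
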